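import Pool.Agent.Lib.MP_3650db_nt.P5.WindowLong

set_option autoImplicit false

/-!
Iizuka's conjecture for the prime `5` and every length `n ≤ 15`: there are infinitely many `d` such
that `5` divides the class numbers of all the imaginary quadratic fields
`ℚ(√d)`, `ℚ(√(d+1))`, …, `ℚ(√(d+n))`.
-/

namespace Pool.Agent.Results.MP_3650db_nt.FiveWindow

open Pool.Agent.Lib.MP3650db

theorem result (n : ℕ) (hn : n ≤ 15) :
    {d : ℤ | d + (n : ℤ) < 0 ∧ ∀ i : ℕ, i ≤ n →
      ∀ (K : Type) [Field K] [NumberField K],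
        (∃ x : K, x ^ 2 = (((d + (i : ℤ)) : ℤ) : K) ∧ Algebra.adjoin ℚ {x} = ⊤) →
          5 ∣ NumberField.classNumber K}.Infinite := by
  refine P5.five_infinite.mono ?_
  rintro d ⟨h1, h2⟩
  have h3 : (n : ℤ) ≤ 15 := by exact_mod_cast hn
  exact ⟨by linarith, fun i hi => h2 i (hi.trans hn)⟩

end Pool.Agent.Results.MP_3650db_nt.FiveWindow
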