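import Pool.Agent.Lib.MP_3650db_nt.All

set_option autoImplicit false

/-!
The conjecture for the prime `p = 3` and every `n` (jointly with any power of two): there are
infinitely many integers `d`, with `d + n < 0`, such that `3 * 2 ^ t` divides the class numbers of
the imaginary quadratic fields `ℚ(√d)`, `ℚ(√(d+1))`, …, `ℚ(√(d+n))`.
-/

namespace Pool.Agent.Results.MP_3650db_nt.ThreeAll

theorem result (n t : ℕ) :
    Set.Infinite {d : ℤ | d + (n : ℤ) < 0 ∧ ∀ i : ℕ, i ≤ n →
      ∀ (K : Type) [Field K] [NumberField K],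
        (∃ x : K, x ^ 2 = (((d + (i : ℤ)) : ℤ) : K) ∧ Algebra.adjoin ℚ {x} = ⊤) →
          3 * 2 ^ t ∣ NumberField.classNumber K} :=
  Pool.Agent.Lib.MP3650db.three_two_pow_all n t

end Pool.Agent.Results.MP_3650db_nt.ThreeAll
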