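import Pool.Agent.Lib.MP_3650db_nt.N2.Final

set_option autoImplicit false

/-!
Iizuka's conjecture for `n = 2` and every prime `p`: there are infinitely many `d < -2` such that `p`
divides the class numbers of the imaginary quadratic fields `ℚ(√d)`, `ℚ(√(d+1))`, `ℚ(√(d+2))`.
-/

namespace Pool.Agent.Results.MP_3650db_nt.TwoAll

theorem result (p : ℕ) (hp : p.Prime) :
    Set.Infinite {d : ℤ | d + 2 < 0 ∧ ∀ i : ℕ, i ≤ 2 →
      ∀ (K : Type) [Field K] [NumberField K],
        (∃ x : K, x ^ 2 = (((d + (i : ℤ)) : ℤ) : K) ∧ Algebra.adjoin ℚ {x} = ⊤) →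
          p ∣ NumberField.classNumber K} :=
  Pool.Agent.Lib.MP3650db.N2.two_all p hp

end Pool.Agent.Results.MP_3650db_nt.TwoAll
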